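import Pool.Agent.W680.WH.Stm

/-! WHH-BLA: block algebra. -/

set_option autoImplicit false

open scoped ComplexConjugate InnerProductSpace
open ContinuousLinearMap Filter
open Pool.Agent.W680.WH

namespace Pool.Agent.W683.WH.Bla

theorem ext2 (x y : E2) (h1 : x.fst = y.fst) (h2 : x.snd = y.snd) : x = y :=
  WithLp.ofLp_injective _ (Prod.ext h1 h2)

/-- inclusion of the first summand -/
noncomputable def i1 : E →L[ℂ] E2 :=
  (WithLp.prodContinuousLinearEquiv 2 ℂ E E).symm.toContinuousLinearMap ∘L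
    ContinuousLinearMap.inl ℂ E E

/-- inclusion of the second summand -/
noncomputable def i2 : E →L[ℂ] E2 :=
  (WithLp.prodContinuousLinearEquiv 2 ℂ E E).symm.toContinuousLinearMap ∘L
    ContinuousLinearMap.inr ℂ E E

/-- first projection -/
noncomputable def p1 : E2 →L[ℂ] E :=
  ContinuousLinearMap.fst ℂ E E ∘L
    (WithLp.prodContinuousLinearEquiv 2 ℂ E E).toContinuousLinearMap

/-- second projection -/
noncomputable def p2 : E2 →L[ℂ] E :=
  ContinuousLinearMap.snd ℂ E E ∘L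
    (WithLp.prodContinuousLinearEquiv 2 ℂ E E).toContinuousLinearMap

theorem i1_fst (f : E) : (i1 f).fst = f := rfl
theorem i1_snd (f : E) : (i1 f).snd = 0 := rfl
theorem i2_fst (f : E) : (i2 f).fst = 0 := rfl
theorem i2_snd (f : E) : (i2 f).snd = f := rfl
theorem p1_apply (x : E2) : p1 x = x.fst := rfl
theorem p2_apply (x : E2) : p2 x = x.snd := rfl
theorem add_fst (x y : E2) : (x + y).fst = x.fst + y.fst := rfl
theorem add_snd (x y : E2) : (x + y).snd = x.snd + y.snd := rfl
theorem smul_fst (c : ℂ) (y : E2) : (c • y).fst = c • y.fst := rfl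
theorem smul_snd (c : ℂ) (y : E2) : (c • y).snd = c • y.snd := rfl

theorem dec (x : E2) : x = i1 x.fst + i2 x.snd := by
  refine ext2 _ _ ?_ ?_
  · rw [add_fst, i1_fst, i2_fst, add_zero]
  · rw [add_snd, i1_snd, i2_snd, zero_add]

theorem norm_le (x : E2) : ‖x‖ ≤ ‖x.fst‖ + ‖x.snd‖ := by
  rw [WithLp.prod_norm_eq_of_L2]
  apply Real.sqrt_le_iff.2
  constructor
  · positivity
  · nlinarith [norm_nonneg x.fst, norm_nonneg x.snd,
      mul_nonneg (norm_nonneg x.fst) (norm_nonneg x.snd)]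

theorem norm_fst (x : E2) : ‖x.fst‖ ≤ ‖x‖ := by
  rw [WithLp.prod_norm_eq_of_L2]
  apply Real.le_sqrt_of_sq_le
  nlinarith [sq_nonneg ‖x.snd‖]

theorem norm_snd (x : E2) : ‖x.snd‖ ≤ ‖x‖ := by
  rw [WithLp.prod_norm_eq_of_L2]
  apply Real.le_sqrt_of_sq_le
  nlinarith [sq_nonneg ‖x.fst‖]

theorem bla : S_BLA := by
  refine ⟨?_, ?_, ?_, ?_, ?_, ?_, ?_⟩
  · intro A B D A' B' D'
    refine ContinuousLinearMap.ext fun x => ext2 _ _ ?_ ?_
    · rw [blk_fst]
      show (blk A B D (blk A' B' D' x)).fst = A (A' x.fst) + (A (B' x.snd) + B (D' x.snd))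
      rw [blk_fst, blk_fst, blk_snd, map_add, add_assoc]
    · rw [blk_snd]
      show (blk A B D (blk A' B' D' x)).snd = D (D' x.snd)
      rw [blk_snd, blk_snd]
  · refine ContinuousLinearMap.ext fun x => ext2 _ _ ?_ ?_
    · rw [blk_fst]
      show x.fst + 0 = x.fst
      rw [add_zero]
    · rw [blk_snd]
      rfl
  · intro A B D A' B' D'
    refine ContinuousLinearMap.ext fun x => ext2 _ _ ?_ ?_
    · rw [blk_fst]
      show (blk A B D x + blk A' B' D' x).fst = (A x.fst + A' x.fst) + (B x.snd + B' x.snd)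
      rw [add_fst, blk_fst, blk_fst]
      abel
    · rw [blk_snd]
      show (blk A B D x + blk A' B' D' x).snd = D x.snd + D' x.snd
      rw [add_snd, blk_snd, blk_snd]
  · intro c A B D
    refine ContinuousLinearMap.ext fun x => ext2 _ _ ?_ ?_
    · rw [blk_fst]
      show (c • blk A B D x).fst = c • A x.fst + c • B x.snd
      rw [smul_fst, blk_fst, smul_add]
    · rw [blk_snd]
      show (c • blk A B D x).snd = c • D x.snd
      rw [smul_snd, blk_snd]
  · intro A B D A' B' D' h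
    refine ⟨ContinuousLinearMap.ext fun f => ?_, ContinuousLinearMap.ext fun f => ?_,
      ContinuousLinearMap.ext fun f => ?_⟩
    · have h1 : (blk A B D (i1 f)).fst = (blk A' B' D' (i1 f)).fst := by rw [h]
      rw [blk_fst, blk_fst, i1_fst, i1_snd, map_zero, map_zero, add_zero, add_zero] at h1
      exact h1
    · have h1 : (blk A B D (i2 f)).fst = (blk A' B' D' (i2 f)).fst := by rw [h]
      rw [blk_fst, blk_fst, i2_fst, i2_snd, map_zero, map_zero, zero_add, zero_add] at h1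
      exact h1
    · have h1 : (blk A B D (i2 f)).snd = (blk A' B' D' (i2 f)).snd := by rw [h]
      rw [blk_snd, blk_snd, i2_snd] at h1
      exact h1
  · intro A B D
    refine ContinuousLinearMap.opNorm_le_bound _ (by positivity) fun x => ?_
    have h1 := norm_le (blk A B D x)
    rw [blk_fst, blk_snd] at h1
    have h2 : ‖A x.fst + B x.snd‖ ≤ ‖A‖ * ‖x‖ + ‖B‖ * ‖x‖ := by
      refine (norm_add_le _ _).trans (add_le_add ?_ ?_)
      · exact (A.le_opNorm _).trans (mul_le_mul_of_nonneg_left (norm_fst x) (norm_nonneg _))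
      · exact (B.le_opNorm _).trans (mul_le_mul_of_nonneg_left (norm_snd x) (norm_nonneg _))
    have h3 : ‖D x.snd‖ ≤ ‖D‖ * ‖x‖ :=
      (D.le_opNorm _).trans (mul_le_mul_of_nonneg_left (norm_snd x) (norm_nonneg _))
    calc ‖blk A B D x‖ ≤ _ := h1
      _ ≤ (‖A‖ * ‖x‖ + ‖B‖ * ‖x‖) + ‖D‖ * ‖x‖ := add_le_add h2 h3
      _ = (‖A‖ + ‖B‖ + ‖D‖) * ‖x‖ := by ring
  · intro M hM
    refine ⟨p1 ∘L M ∘L i1, p1 ∘L M ∘L i2, p2 ∘L M ∘L i2, ?_⟩
    refine ContinuousLinearMap.ext fun x => ext2 _ _ ?_ ?_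
    · rw [blk_fst]
      show (M x).fst = (M (i1 x.fst)).fst + (M (i2 x.snd)).fst
      rw [← add_fst, ← map_add, ← dec]
    · rw [blk_snd]
      show (M x).snd = (M (i2 x.snd)).snd
      have h1 : (M (i1 x.fst)).snd = 0 := hM _ (i1_snd _)
      have h2 : (M x).snd = (M (i1 x.fst)).snd + (M (i2 x.snd)).snd := by
        rw [← add_snd, ← map_add, ← dec]
      rw [h2, h1, zero_add]

end Pool.Agent.W683.WH.Bla
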